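import Mathlib

/-!
Definitions for categorical closedness of semigroups (problem MP_4caafd_al).
-/

namespace Pool.Agent.Lib.MP_4caafd_al

universe u v

/-- A class of semigroups with a topology, with carriers in universe `u`. -/
abbrev SGClass : Type (u + 1) :=
  ∀ (Y : Type u) [Semigroup Y] [TopologicalSpace Y], Prop

/-- Inclusion of classes. -/
def SGClass.Sub (C D : SGClass.{u}) : Prop :=
  ∀ (Y : Type u) [Semigroup Y] [TopologicalSpace Y], C Y → D Y

/-- The class of `T₁` topological semigroups. -/
def T1S : SGClass.{u} := fun Y _ _ => ContinuousMul Y ∧ T1Space Y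

/-- The class of Hausdorff topological semigroups. -/
def T2S : SGClass.{u} := fun Y _ _ => ContinuousMul Y ∧ T2Space Y

/-- The class of Hausdorff zero-dimensional topological semigroups
(the clopen sets form a base). -/
def TzS : SGClass.{u} := fun Y _ _ =>
  ContinuousMul Y ∧ T2Space Y ∧ TopologicalSpace.IsTopologicalBasis {s : Set Y | IsClopen s}

/-- `X` is `C`-closed: for every `Y` in `C` and every homomorphism `h : X → Y` that is a
topological embedding of `X` with the discrete topology `⊥`, the image of `h` is closed. -/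
def IsCClosed (C : SGClass.{u}) (X : Type v) [Semigroup X] : Prop :=
  ∀ (Y : Type u) [Semigroup Y] [TopologicalSpace Y], C Y →
    ∀ h : X →ₙ* Y, @Topology.IsEmbedding X Y ⊥ _ h → IsClosed (Set.range h)

/-- A (possibly empty) two-sided ideal of a semigroup. -/
def IsIdeal {X : Type v} [Semigroup X] (I : Set X) : Prop :=
  ∀ x ∈ I, ∀ a : X, x * a ∈ I ∧ a * x ∈ I

/-- The Rees congruence `(I × I) ∪ Δ` of an ideal `I`. -/
def reesCon {X : Type v} [Semigroup X] (I : Set X) (hI : IsIdeal I) : Con X where
  r x y := (x ∈ I ∧ y ∈ I) ∨ x = y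
  iseqv :=
    { refl := fun _ => Or.inr rfl
      symm := fun h => h.elim (fun h => Or.inl ⟨h.2, h.1⟩) (fun h => Or.inr h.symm)
      trans := fun h₁ h₂ => by
        rcases h₁ with h₁ | rfl
        · rcases h₂ with h₂ | rfl
          · exact Or.inl ⟨h₁.1, h₂.2⟩
          · exact Or.inl h₁
        · exact h₂ }
  mul' := fun {w x y z} h₁ h₂ => by
    rcases h₁ with h₁ | rfl
    · exact Or.inl ⟨(hI w h₁.1 y).1, (hI x h₁.2 z).1⟩
    · rcases h₂ with h₂ | rfl
      · exact Or.inl ⟨(hI y h₂.1 w).2, (hI z h₂.2 w).2⟩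
      · exact Or.inr rfl

/-- `X` is ideally `C`-closed: `X / I` is `C`-closed for every ideal `I`. -/
def IsIdeallyClosed (C : SGClass.{u}) (X : Type v) [Semigroup X] : Prop :=
  ∀ (I : Set X) (hI : IsIdeal I), IsCClosed C (reesCon I hI).Quotient

/-- `X` is projectively `C`-closed: `X / ≈` is `C`-closed for every congruence `≈`. -/
def IsProjectivelyClosed (C : SGClass.{u}) (X : Type v) [Semigroup X] : Prop :=
  ∀ c : Con X, IsCClosed C c.Quotient

end Pool.Agent.Lib.MP_4caafd_al
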